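import Pool.Agent.H60.RF.Stmts

/-!
# Row FUB: averaging over some rows first
-/

set_option autoImplicit false

open Finset Real

namespace Pool.RF

open Pool.Agent.H49.Ent Pool.Agent.H32.Dense Pool.STK Pool.KA Pool.GP Pool.KRN

theorem fub : FUBStmt := by
  classical
  intro R _ _ K k B hB G c hc
  -- the involution
  let φ : (Fin K → R) × (Fin k → R) → (Fin K → R) × (Fin k → R) :=
    fun x => (Function.extend B x.2 x.1, x.1 ∘ B)
  have hφ : Function.Involutive φ := by
    rintro ⟨b, r⟩
    refine Prod.ext ?_ ?_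
    · funext i
      change Function.extend B (b ∘ B) (Function.extend B r b) i = b i
      by_cases h : ∃ l, B l = i
      · obtain ⟨l, rfl⟩ := h
        rw [hB.extend_apply]
        rfl
      · rw [Function.extend_apply' _ _ _ h, Function.extend_apply' _ _ _ h]
    · funext l
      change Function.extend B r b (B l) = r l
      rw [hB.extend_apply]
  have h1 : ∑ x : (Fin K → R) × (Fin k → R), G (φ x).1 =
      ∑ x : (Fin K → R) × (Fin k → R), G x.1 :=
    Equiv.sum_comp hφ.toPerm (fun x => G x.1)
  rw [Fintype.sum_prod_type, Fintype.sum_prod_type] at h1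
  have h2 : ∑ b : Fin K → R, ∑ r : Fin k → R, G (φ (b, r)).1 ≤
      ∑ b : Fin K → R, c * (Fintype.card (Fin k → R) : ℝ) :=
    Finset.sum_le_sum (fun b _ => hc b)
  rw [h1] at h2
  simp only [Finset.sum_const, Finset.card_univ, nsmul_eq_mul] at h2
  rw [← Finset.mul_sum] at h2
  have h3 : (0 : ℝ) < (Fintype.card (Fin k → R) : ℝ) := by
    exact_mod_cast Fintype.card_pos
  refine le_of_mul_le_mul_left ?_ h3
  calc (Fintype.card (Fin k → R) : ℝ) * ∑ b : Fin K → R, G b
      ≤ (Fintype.card (Fin K → R) : ℝ) * (c * (Fintype.card (Fin k → R) : ℝ)) := h2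
    _ = _ := by ring

end Pool.RF
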