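import Pool.Agent.H60.RF.Stmts

/-!
# Row SUB: submodularity of the entropy of the lines seen
-/

set_option autoImplicit false

open Finset Real

namespace Pool.RF

open Pool.Agent.H49.Ent Pool.Agent.H32.Dense Pool.STK Pool.KA Pool.GP Pool.KRN

theorem sub (h1 : LSAStmt) : SUBStmt := by
  intro m J K F a q hq S Z
  have hn := hq.nonneg
  have mono : ∀ {s t : Finset (Fin K)}, s ⊆ t → ∀ ω ω' : F.Ω,
      ls F a t ω = ls F a t ω' → ls F a s ω = ls F a s ω' := by
    intro s t hst ω ω' h
    exact (h1 F a s ω ω').2.2.1 t hst h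
  refine ⟨?_, ?_, ?_⟩
  · intro s t
    have key := submod hn (X := fun ω => (ls F a s ω, Z ω)) (Y := fun ω => (ls F a t ω, Z ω))
      (Z := fun ω => (ls F a (s ∩ t) ω, Z ω)) (W := fun ω => (ls F a (s ∪ t) ω, Z ω))
      (by
        intro ω ω' _ _ h
        have e := Prod.ext_iff.mp h
        exact Prod.ext (mono inter_subset_left ω ω' e.1) e.2)
      (by
        intro ω ω' _ _ h
        have e := Prod.ext_iff.mp h
        exact Prod.ext (mono inter_subset_right ω ω' e.1) e.2)
      (by
        intro ω ω' _ _ h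
        have e := Prod.ext_iff.mp h
        have e1 := Prod.ext_iff.mp e.1
        have e2 := Prod.ext_iff.mp e.2
        refine Prod.ext ?_ e1.2
        refine (h1 F a (s ∪ t) ω ω').1.mpr (fun i hi => ?_)
        rcases mem_union.mp hi with hi | hi
        · exact (h1 F a s ω ω').1.mp e1.1 i hi
        · exact (h1 F a t ω ω').1.mp e2.1 i hi)
    unfold CH
    linarith
  · unfold CH
    have : H q (fun ω => (ls F a ∅ ω, Z ω)) = H q Z :=
      H_congr hn (fun ω ω' _ _ h => Prod.ext ((h1 F a ∅ ω ω').1.mpr (fun i hi => by simp at hi)) h)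
        (fun ω ω' _ _ h => (Prod.ext_iff.mp h).2)
    rw [this, sub_self]
  · intro s
    have := CH_through (ls F a s) Z hn
    linarith

end Pool.RF
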